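import Pool.Agent.H16.LipS.Main

/-!
# MP_f48d3d_an: the question about quotients `l_1` is a question about the plane

Q1 has a positive answer iff the Lipschitz free space of the Euclidean plane does not contain the
spaces `l_∞^n` uniformly.
-/

set_option autoImplicit false

universe u

namespace Pool.Agent.Results.MP_f48d3d_an.PlaneCotype

open Pool.LipS

theorem result :
    (∃ (E : Type u) (_ : NormedAddCommGroup E) (_ : NormedSpace ℝ E) (_ : CompleteSpace E),
      Dim2 E ∧ ¬ Onto E) ↔ ¬ ContainsLinf ℂ :=
  plane

end Pool.Agent.Results.MP_f48d3d_an.PlaneCotype
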