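import Pool.Agent.H16.LipS.Main

/-!
# MP_f48d3d_an: Banach spaces containing `l_1^n` uniformly

For these spaces `E` there is a continuous linear surjection from `Lip_0(E)` onto `l_1`.
-/

set_option autoImplicit false

universe u

namespace Pool.Agent.Results.MP_f48d3d_an.UniformL1

open Pool.LipS

theorem result (E : Type u) [NormedAddCommGroup E] [NormedSpace ℝ E] (h : ContainsL1 E) :
    Onto E :=
  onto_of_containsL1 E h

end Pool.Agent.Results.MP_f48d3d_an.UniformL1
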